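import Pool.Agent.Work.MP_bec1e1_lv_helper15.LUInterface
import Pool.Agent.Work.MP_bec1e1_lv_h99.EXC
import Pool.Agent.Work.MP_bec1e1_lv_helper13.TDet

/-!
# LU, block TENS: `K` independent units are a unit with high probability luck
-/

set_option autoImplicit false
set_option maxHeartbeats 400000

open Filter Topology
open scoped BigOperators

namespace Pool.Agent.LCSV

open Pool.Agent.LCSE

noncomputable section

namespace TENS

/-! ### tools for `PW` -/

section PWtools
variable {ι ι₁ ι₂ X Y : Type} [Fintype ι] [DecidableEq ι] [Fintype ι₁] [DecidableEq ι₁]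
  [Fintype ι₂] [DecidableEq ι₂] [Fintype X] [Fintype Y]

lemma pw_congr {w : ι → X → ℝ} {f g : (ι → X) → ℝ} (h : ∀ x, f x = g x) : PW w f = PW w g := by
  unfold PW; exact Finset.sum_congr rfl fun x _ => by rw [h]

lemma pw_congr_w {w w' : ι → X → ℝ} {f : (ι → X) → ℝ} (h : ∀ i x, w i x = w' i x) :
    PW w f = PW w' f := by
  have : w = w' := funext fun i => funext fun x => h i x
  rw [this]

lemma pw_mono {w : ι → X → ℝ} (hw : ∀ i x, 0 ≤ w i x) {f g : (ι → X) → ℝ} (h : ∀ x, f x ≤ g x) :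
    PW w f ≤ PW w g := by
  unfold PW
  exact Finset.sum_le_sum fun x _ => mul_le_mul_of_nonneg_left (h x)
    (Finset.prod_nonneg fun i _ => hw i _)

lemma pw_add (w : ι → X → ℝ) (f g : (ι → X) → ℝ) :
    PW w (fun x => f x + g x) = PW w f + PW w g := by
  unfold PW; rw [← Finset.sum_add_distrib]; exact Finset.sum_congr rfl fun x _ => by ring

lemma pw_const_mul (w : ι → X → ℝ) (c : ℝ) (f : (ι → X) → ℝ) :
    PW w (fun x => c * f x) = c * PW w f := by
  unfold PW; rw [Finset.mul_sum]; exact Finset.sum_congr rfl fun x _ => by ring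

lemma pw_sum {J : Type} (s : Finset J) (w : ι → X → ℝ) (f : J → (ι → X) → ℝ) :
    PW w (fun x => ∑ j ∈ s, f j x) = ∑ j ∈ s, PW w (f j) := by
  unfold PW; rw [Finset.sum_comm]; exact Finset.sum_congr rfl fun x _ => by rw [Finset.mul_sum]

/-- product functions -/
lemma pw_prod (w g : ι → X → ℝ) :
    PW w (fun x => ∏ i, g i (x i)) = ∏ i, ∑ x, w i x * g i x := by
  unfold PW
  rw [Finset.prod_univ_sum, Fintype.piFinset_univ]
  exact Finset.sum_congr rfl fun x _ => by rw [Finset.prod_mul_distrib]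

lemma pw_const {w : ι → X → ℝ} (hw : ∀ i, ∑ x, w i x = 1) (c : ℝ) : PW w (fun _ => c) = c := by
  have h := pw_prod w (fun _ _ => (1 : ℝ))
  simp only [Finset.prod_const_one, mul_one, hw] at h
  have h2 := pw_const_mul w c (fun _ => (1 : ℝ))
  simp only [mul_one] at h2
  rw [h2, h, mul_one]

lemma pw_coord {w : ι → X → ℝ} (hw : ∀ i, ∑ x, w i x = 1) (i₀ : ι) (h : X → ℝ) :
    PW w (fun x => h (x i₀)) = ∑ x, w i₀ x * h x := by
  have h1 := pw_prod w (fun i x => if i = i₀ then h x else 1)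
  have h2 : ∀ x : ι → X, (∏ i, if i = i₀ then h (x i) else 1) = h (x i₀) := by
    intro x
    rw [Finset.prod_ite_eq' Finset.univ i₀ (fun i => h (x i))]
    simp
  simp only [h2] at h1
  rw [h1, Finset.prod_eq_single i₀]
  · simp
  · intro i _ hi
    simp [hi, hw]
  · simp

lemma pw_coord2 {w : ι → X → ℝ} (hw : ∀ i, ∑ x, w i x = 1) {i₀ i₁ : ι} (hi : i₀ ≠ i₁)
    (h h' : X → ℝ) :
    PW w (fun x => h (x i₀) * h' (x i₁)) = (∑ x, w i₀ x * h x) * ∑ x, w i₁ x * h' x := by
  have h1 := pw_prod w (fun i x => (if i = i₀ then h x else 1) * (if i = i₁ then h' x else 1))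
  have h2 : ∀ x : ι → X, (∏ i, (if i = i₀ then h (x i) else 1) *
      (if i = i₁ then h' (x i) else 1)) = h (x i₀) * h' (x i₁) := by
    intro x
    rw [Finset.prod_mul_distrib, Finset.prod_ite_eq' Finset.univ i₀ (fun i => h (x i)),
      Finset.prod_ite_eq' Finset.univ i₁ (fun i => h' (x i))]
    simp
  simp only [h2] at h1
  rw [h1, ← Finset.mul_prod_erase Finset.univ _ (Finset.mem_univ i₀),
    ← Finset.mul_prod_erase (Finset.univ.erase i₀) _
      (Finset.mem_erase.mpr ⟨hi.symm, Finset.mem_univ i₁⟩)]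
  have h3 : ∏ i ∈ (Finset.univ.erase i₀).erase i₁, (∑ x, w i x * ((if i = i₀ then h x else 1) *
      (if i = i₁ then h' x else 1))) = 1 := by
    apply Finset.prod_eq_one
    intro i hi'
    simp only [Finset.mem_erase, Finset.mem_univ, and_true] at hi'
    simp [hi'.1, hi'.2, hw]
  rw [h3, mul_one]
  simp [hi, hi.symm]

/-- iterated means over the same index set -/
lemma pw_fubini (w : ι → X → ℝ) (w₂ : ι → X → Y → ℝ) (g : (ι → X) → (ι → Y) → ℝ) :
    PW w (fun x => PW (fun i => w₂ i (x i)) (fun y => g x y)) =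
      PW (fun i (p : X × Y) => w i p.1 * w₂ i p.1 p.2)
        (fun p => g (fun i => (p i).1) (fun i => (p i).2)) := by
  unfold PW
  have h := Fintype.sum_equiv (Equiv.arrowProdEquivProdArrow ι (fun _ => X) (fun _ => Y))
    (fun p : ι → X × Y => (∏ i, w i (p i).1 * w₂ i (p i).1 (p i).2) *
      g (fun i => (p i).1) (fun i => (p i).2))
    (fun p : (ι → X) × (ι → Y) => (∏ i, w i (p.1 i) * w₂ i (p.1 i) (p.2 i)) * g p.1 p.2)
    (fun p => rfl)
  simp only
  rw [h, Fintype.sum_prod_type]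
  refine Finset.sum_congr rfl fun x _ => ?_
  rw [Finset.mul_sum]
  refine Finset.sum_congr rfl fun y _ => ?_
  simp only
  rw [Finset.prod_mul_distrib]; ring

/-- reindexing -/
lemma pw_reindex (E : ι₁ × ι₂ ≃ ι) (w : ι → X → ℝ) (f : (ι → X) → ℝ) :
    PW w f = PW (fun (i : ι₁) (c : ι₂ → X) => ∏ j, w (E (i, j)) (c j))
      (fun cc => f (fun i => cc (E.symm i).1 (E.symm i).2)) := by
  unfold PW
  refine Fintype.sum_equiv ((E.arrowCongr (Equiv.refl X)).symm.trans (Equiv.curry ι₁ ι₂ X)) _ _ ?_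
  intro c
  have h1 : (fun i => ((E.arrowCongr (Equiv.refl X)).symm.trans (Equiv.curry ι₁ ι₂ X)) c
      (E.symm i).1 (E.symm i).2) = c := by
    funext i
    simp [Function.curry]
  simp only
  rw [h1]
  congr 1
  rw [← Equiv.prod_comp E, Fintype.prod_prod_type]
  refine Finset.prod_congr rfl fun i _ => Finset.prod_congr rfl fun j _ => ?_
  simp [Function.curry]

/-- first coordinate -/
lemma pw_succ {K : ℕ} (w : Fin (K + 1) → X → ℝ) (f : (Fin (K + 1) → X) → ℝ) :
    PW w f = ∑ x₀, w 0 x₀ * PW (fun i : Fin K => w i.succ) (fun x => f (Fin.cons x₀ x)) := by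
  unfold PW
  rw [← Fintype.sum_equiv (Fin.consEquiv (fun _ : Fin (K + 1) => X))
    (fun p : X × (Fin K → X) => (∏ i, w i ((Fin.cons p.1 p.2 : Fin (K + 1) → X) i)) *
      f (Fin.cons p.1 p.2)) _ (fun p => rfl), Fintype.sum_prod_type]
  refine Finset.sum_congr rfl fun x₀ _ => ?_
  rw [Finset.mul_sum]
  refine Finset.sum_congr rfl fun x _ => ?_
  rw [Fin.prod_univ_succ]
  simp only [Fin.cons_zero, Fin.cons_succ]
  ring

end PWtools

section PWtools2
variable {ι X Y : Type} [Fintype ι] [DecidableEq ι] [Fintype X] [Fintype Y]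

lemma pw_marg (w : ι → X → ℝ) (w₂ : ι → X → Y → ℝ) (F : (ι → Y) → ℝ) :
    PW w (fun x => PW (fun i => w₂ i (x i)) F) = PW (fun i y => ∑ x, w i x * w₂ i x y) F := by
  have h1 : PW w (fun x => PW (fun i => w₂ i (x i)) F) =
      ∑ y : ι → Y, PW w (fun x => ∏ i, w₂ i (x i) (y i)) * F y := by
    unfold PW
    simp only [Finset.mul_sum, Finset.sum_mul]
    rw [Finset.sum_comm]
    refine Finset.sum_congr rfl fun y _ => Finset.sum_congr rfl fun x _ => by ring
  rw [h1]
  unfold PW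
  refine Finset.sum_congr rfl fun y _ => ?_
  congr 1
  exact pw_prod w (fun i x => w₂ i x (y i))

lemma pw_mono_w {w w' : ι → X → ℝ} (h0 : ∀ i x, 0 ≤ w i x) (h : ∀ i x, w i x ≤ w' i x)
    {F : (ι → X) → ℝ} (hF : ∀ x, 0 ≤ F x) : PW w F ≤ PW w' F := by
  unfold PW
  exact Finset.sum_le_sum fun x _ => mul_le_mul_of_nonneg_right
    (Finset.prod_le_prod (fun i _ => h0 i _) fun i _ => h i _) (hF x)

lemma pw_smul_w (A : ℝ) (w : ι → X → ℝ) (F : (ι → X) → ℝ) :
    PW (fun i x => A * w i x) F = A ^ (Fintype.card ι) * PW w F := by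
  unfold PW
  rw [Finset.mul_sum]
  refine Finset.sum_congr rfl fun x _ => ?_
  rw [Finset.prod_mul_distrib, Finset.prod_const, Finset.card_univ]; ring

lemma pw_single [DecidableEq X] (w : ι → X → ℝ) (c : ι → X) :
    PW w (fun x => if x = c then 1 else 0) = ∏ i, w i (c i) := by
  unfold PW
  simp

lemma pw_nonneg {w : ι → X → ℝ} (hw : ∀ i x, 0 ≤ w i x) {f : (ι → X) → ℝ} (h : ∀ x, 0 ≤ f x) :
    0 ≤ PW w f := by
  unfold PW
  exact Finset.sum_nonneg fun x _ => mul_nonneg (Finset.prod_nonneg fun i _ => hw i _) (h x)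

/-- second moment of a sum of independent centred variables -/
lemma pw_sq {w : X → ℝ} (hw : ∑ x, w x = 1) (Z : X → ℝ) (hZ : ∑ x, w x * Z x = 0) :
    PW (fun _ : ι => w) (fun x => (∑ i, Z (x i)) ^ 2) = Fintype.card ι * ∑ x, w x * Z x ^ 2 := by
  have h1 : ∀ x : ι → X, (∑ i, Z (x i)) ^ 2 = ∑ i, ∑ j, Z (x i) * Z (x j) := by
    intro x; rw [sq, Finset.sum_mul_sum]
  simp only [h1]
  rw [pw_sum]
  have h2 : ∀ i : ι, PW (fun _ : ι => w) (fun x => ∑ j, Z (x i) * Z (x j)) =
      ∑ x, w x * Z x ^ 2 := by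
    intro i
    rw [pw_sum, Finset.sum_eq_single i]
    · have := pw_coord (w := fun _ : ι => w) (fun _ => hw) i (fun x => Z x ^ 2)
      simpa [sq] using this
    · intro j _ hj
      rw [pw_coord2 (w := fun _ : ι => w) (fun _ => hw) (Ne.symm hj) Z Z, hZ, zero_mul]
    · simp
  rw [Finset.sum_congr rfl fun i _ => h2 i, Finset.sum_const, Finset.card_univ, nsmul_eq_mul]

end PWtools2

/-! ### words -/

variable {k : ℕ}

/-- concatenation -/
def flat {K : ℕ} (g : Fin K → List (Fin k)) : List (Fin k) := (List.ofFn g).flatten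

/-- block `i` of a word -/
def blk (n i : ℕ) (V : List (Fin k)) : List (Fin k) := (V.drop (i * n)).take n

lemma flat_cons {K : ℕ} (g : Fin (K + 1) → List (Fin k)) :
    flat g = g 0 ++ flat (fun i => g i.succ) := by
  unfold flat
  rw [List.ofFn_succ, List.flatten_cons]

lemma flat_length {K n : ℕ} (g : Fin K → List (Fin k)) (hg : ∀ i, (g i).length = n) :
    (flat g).length = K * n := by
  induction K with
  | zero => simp [flat]
  | succ K ih =>
    rw [flat_cons, List.length_append, hg, ih _ (fun i => hg _)]; ring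

lemma blk_flat {K n : ℕ} (g : Fin K → List (Fin k)) (hg : ∀ i, (g i).length = n) (i : Fin K) :
    blk n i (flat g) = g i := by
  induction K with
  | zero => exact i.elim0
  | succ K ih =>
    unfold blk
    refine Fin.cases ?_ (fun j => ?_) i
    · simp only [Fin.val_zero, Nat.zero_mul, List.drop_zero]
      rw [flat_cons, List.take_left' (hg 0)]
    · have h1 : ((j.succ : Fin (K + 1)) : ℕ) * n = n + (j : ℕ) * n := by
        simp only [Fin.val_succ]; ring
      rw [h1, ← List.drop_drop, flat_cons, List.drop_left' (hg 0)]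
      exact ih (fun i => g i.succ) (fun i => hg _) j

/-- uniformity of a concatenation of independent uniform words -/
lemma unif_flat {Y : Type} [Fintype Y] (W : Y → ℝ) (φ : Y → List (Fin k)) (n : ℕ)
    (h : ∀ f : List (Fin k) → ℝ, ∑ y, W y * f (φ y) = Ex k n f) (K : ℕ)
    (f : List (Fin k) → ℝ) :
    PW (fun _ : Fin K => W) (fun y => f (flat fun i => φ (y i))) = Ex k (K * n) f := by
  induction K generalizing f with
  | zero => simp [PW, flat]
  | succ K ih =>
    rw [pw_succ, show (K + 1) * n = n + K * n by ring, Ex_append, ← h]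
    refine Finset.sum_congr rfl fun y₀ _ => ?_
    congr 1
    rw [← ih]
    refine pw_congr fun y => ?_
    rw [flat_cons]
    simp

/-- weights of a word of length `n` -/
def WV (k n : ℕ) (_ : Fin n → Fin k) : ℝ := 1 / (k : ℝ) ^ n

lemma sum_WV (n : ℕ) (f : List (Fin k) → ℝ) :
    ∑ v : Fin n → Fin k, WV k n v * f (List.ofFn v) = Ex k n f := by
  rw [Ex_eq_sum_pi, Finset.sum_div]
  exact Finset.sum_congr rfl fun v _ => by unfold WV; ring

lemma Ex_eq_pw (K n : ℕ) (f : List (Fin k) → ℝ) :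
    Ex k (K * n) f = PW (fun _ : Fin K => WV k n) (fun v => f (flat fun i => List.ofFn (v i))) :=
  (unif_flat (WV k n) List.ofFn n (sum_WV n) K f).symm

/-! ### the tensor product -/

section tensor
variable {n₁ T R : ℕ} {θ Γ D a n₀ b₀ : ℝ} {C Ω : Type} [Fintype C] [Fintype Ω] [DecidableEq C]

/-- index of a block of unit `i` -/
def EE (K T R : ℕ) : Fin K × (Fin T × Fin R) ≃ Fin (K * T) × Fin R :=
  (Equiv.prodAssoc _ _ _).symm.trans (finProdFinEquiv.prodCongr (Equiv.refl _))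

lemma EE_fst (K T R : ℕ) (i : Fin K) (j : Fin T × Fin R) :
    (EE K T R (i, j)).1 = finProdFinEquiv (i, j.1) := rfl

lemma EE_snd (K T R : ℕ) (i : Fin K) (j : Fin T × Fin R) : (EE K T R (i, j)).2 = j.2 := rfl

/-- labels of unit `i` -/
def bsI {K : ℕ} (T : ℕ) (bs : Fin (K * T) → Bool) (i : Fin K) (t : Fin T) : Bool :=
  bs (finProdFinEquiv (i, t))

/-- contents of unit `i` -/
def cI {K : ℕ} (T R : ℕ) (c : Fin (K * T) × Fin R → C) (i : Fin K) (j : Fin T × Fin R) : C :=
  c (EE K T R (i, j))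

/-- the word -/
def tword (U : UnitData k n₁ T R θ Γ D a n₀ b₀ C Ω) (K : ℕ) (ω : Fin K → Ω)
    (bs : Fin (K * T) → Bool) (c : Fin (K * T) × Fin R → C) : List (Fin k) :=
  flat fun i => U.word (ω i) (bsI T bs i) (cI T R c i)

/-- the kernel -/
def tκ (U : UnitData k n₁ T R θ Γ D a n₀ b₀ C Ω) (K : ℕ) (ω : Fin K → Ω) (V : List (Fin k))
    (j : Fin (K * T) × Fin R) (c : C) : ℝ :=
  U.κ (ω ((EE K T R).symm j).1) (blk n₁ ((EE K T R).symm j).1 V) ((EE K T R).symm j).2 c

/-- value along the cuts -/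
def tval (K : ℕ) (w : Fin K → List (Fin k)) (V : Fin K → List (Fin k)) : ℝ :=
  ∑ i, (L (w i) (V i) : ℝ)

lemma tval_le (K : ℕ) (w : Fin K → List (Fin k)) (V : Fin K → List (Fin k)) :
    tval K w V ≤ (L (flat w) (flat V) : ℝ) := by
  unfold tval
  induction K with
  | zero => simp
  | succ K ih =>
    rw [Fin.sum_univ_succ, flat_cons w, flat_cons V]
    have h1 := ih (fun i => w i.succ) (fun i => V i.succ)
    have h2 : ((L (w 0) (V 0) + L (flat fun i => w i.succ) (flat fun i => V i.succ) : ℕ) : ℝ) ≤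
      (L (w 0 ++ flat fun i => w i.succ) (V 0 ++ flat fun i => V i.succ) : ℝ) := by
      exact_mod_cast L_append_ge _ _ _ _
    push_cast at h2
    linarith

lemma split_flat (K : ℕ) (w : Fin K → List (Fin k)) (V : List (Fin k)) :
    ∃ v : Fin K → List (Fin k), (K = 0 ∨ flat v = V) ∧
      (L (flat w) V : ℝ) = ∑ i, (L (w i) (v i) : ℝ) := by
  induction K generalizing V with
  | zero => exact ⟨fun i => i.elim0, Or.inl rfl, by simp [flat]⟩
  | succ K ih =>
    obtain ⟨g, hg, h1⟩ := L_append_split (w 0) (flat fun i => w i.succ) V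
    obtain ⟨v, hv, h2⟩ := ih (fun i => w i.succ) (V.drop g)
    rcases Nat.eq_zero_or_pos K with hK | hK
    · subst hK
      refine ⟨fun _ => V, Or.inr (by simp [flat]), ?_⟩
      simp [flat]
    · refine ⟨Fin.cons (V.take g) v, Or.inr ?_, ?_⟩
      · rw [flat_cons]
        simp only [Fin.cons_zero, Fin.cons_succ]
        rw [hv.resolve_left (by omega), List.take_append_drop]
      · rw [Fin.sum_univ_succ, flat_cons]
        simp only [Fin.cons_zero, Fin.cons_succ]
        rw [h1]; push_cast; rw [h2]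

lemma sum_EE (K T R : ℕ) (f : Fin (K * T) × Fin R → ℝ) :
    ∑ j, f j = ∑ i : Fin K, ∑ j : Fin T × Fin R, f (EE K T R (i, j)) := by
  rw [← Equiv.sum_comp (EE K T R), Fintype.sum_prod_type]

/-- labels from the labels of the units -/
def unB {K : ℕ} (T : ℕ) (bb : Fin K → Fin T → Bool) (j : Fin (K * T)) : Bool :=
  bb (finProdFinEquiv.symm j).1 (finProdFinEquiv.symm j).2

/-- contents from the contents of the units -/
def unC {K : ℕ} (T R : ℕ) (cc : Fin K → Fin T × Fin R → C) (j : Fin (K * T) × Fin R) : C :=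
  cc ((EE K T R).symm j).1 ((EE K T R).symm j).2

lemma unB_EE {K : ℕ} (bb : Fin K → Fin T → Bool) (i : Fin K) (j : Fin T × Fin R) :
    unB T bb (EE K T R (i, j)).1 = bb i j.1 := by
  rw [EE_fst]; unfold unB; simp

lemma bsI_unB {K : ℕ} (bb : Fin K → Fin T → Bool) (i : Fin K) : bsI T (unB T bb) i = bb i := by
  funext t; unfold bsI unB; simp

lemma cI_unC {K : ℕ} (cc : Fin K → Fin T × Fin R → C) (i : Fin K) :
    cI T R (unC T R cc) i = cc i := by
  funext j; unfold cI unC; simp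

lemma tword_un (U : UnitData k n₁ T R θ Γ D a n₀ b₀ C Ω) (K : ℕ) (ω : Fin K → Ω)
    (bb : Fin K → Fin T → Bool) (cc : Fin K → Fin T × Fin R → C) :
    tword U K ω (unB T bb) (unC T R cc) = flat fun i => U.word (ω i) (bb i) (cc i) := by
  unfold tword
  simp only [bsI_unB, cI_unC]

lemma tκ_EE (U : UnitData k n₁ T R θ Γ D a n₀ b₀ C Ω) (K : ℕ) (ω : Fin K → Ω)
    (v : Fin K → Fin n₁ → Fin k) (i : Fin K) (j : Fin T × Fin R) :
    tκ U K ω (flat fun i => List.ofFn (v i)) (EE K T R (i, j)) =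
      U.κ (ω i) (List.ofFn (v i)) j := by
  unfold tκ
  simp only [Equiv.symm_apply_apply]
  funext c
  rw [blk_flat (fun i => List.ofFn (v i)) (fun i => by simp) i]

/-- weights of the labels -/
def WB (θ : ℝ) (T : ℕ) (b : Fin T → Bool) : ℝ := ∏ t, bw θ (b t)

/-- weights of the contents -/
def Wκ (U : UnitData k n₁ T R θ Γ D a n₀ b₀ C Ω) (ω : Ω) (v : Fin n₁ → Fin k)
    (c : Fin T × Fin R → C) : ℝ := ∏ j, U.κ ω (List.ofFn v) j (c j)

/-- sample space of a unit -/
abbrev SS (k n₁ T R : ℕ) (C Ω : Type) : Type :=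
  Ω × (Fin T → Bool) × (Fin n₁ → Fin k) × (Fin T × Fin R → C)

/-- joint weights of a unit -/
def WJ (U : UnitData k n₁ T R θ Γ D a n₀ b₀ C Ω) (x : SS k n₁ T R C Ω) : ℝ :=
  U.P x.1 * (WB θ T x.2.1 * (WV k n₁ x.2.2.1 * Wκ U x.1 x.2.2.1 x.2.2.2))

lemma pw_B (K T : ℕ) (θ : ℝ) (f : (Fin (K * T) → Bool) → ℝ) :
    PW (fun _ : Fin (K * T) => bw θ) f = PW (fun _ : Fin K => WB θ T) (fun bb => f (unB T bb)) :=
  pw_reindex (finProdFinEquiv (m := K) (n := T)) (fun _ => bw θ) f

lemma pw_C (K : ℕ) (w : Fin (K * T) × Fin R → C → ℝ) (f : (Fin (K * T) × Fin R → C) → ℝ) :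
    PW w f = PW (fun (i : Fin K) (c : Fin T × Fin R → C) => ∏ j, w (EE K T R (i, j)) (c j))
      (fun cc => f (unC T R cc)) :=
  pw_reindex (EE K T R) w f

/-- the joint law of `K` units -/
lemma J_rep (U : UnitData k n₁ T R θ Γ D a n₀ b₀ C Ω) (K : ℕ)
    (g : (Fin K → Ω) → (Fin (K * T) → Bool) → List (Fin k) → (Fin (K * T) × Fin R → C) → ℝ) :
    (∑ ω : Fin K → Ω, (∏ i, U.P (ω i)) * PW (fun _ : Fin (K * T) => bw θ) fun bs =>
      Ex k (K * n₁) fun V => PW (tκ U K ω V) fun c => g ω bs V c) =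
    PW (fun _ : Fin K => WJ U) (fun x : Fin K → SS k n₁ T R C Ω => g (fun i => (x i).1)
      (unB T fun i => (x i).2.1) (flat fun i => List.ofFn (x i).2.2.1)
      (unC T R fun i => (x i).2.2.2)) := by
  have h1 : ∀ (ω : Fin K → Ω) (bs : Fin (K * T) → Bool),
      (Ex k (K * n₁) fun V => PW (tκ U K ω V) fun c => g ω bs V c) =
      PW (fun (i : Fin K) (p : (Fin n₁ → Fin k) × (Fin T × Fin R → C)) =>
        WV k n₁ p.1 * Wκ U (ω i) p.1 p.2)
        (fun p => g ω bs (flat fun i => List.ofFn (p i).1) (unC T R fun i => (p i).2)) := by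
    intro ω bs
    rw [Ex_eq_pw, ← pw_fubini (fun _ : Fin K => WV k n₁) (fun i v => Wκ U (ω i) v)
      (fun v c => g ω bs (flat fun i => List.ofFn (v i)) (unC T R c))]
    refine pw_congr fun v => ?_
    rw [pw_C]
    refine pw_congr_w fun i c => ?_
    simp only [tκ_EE]
    rfl
  have h2 : ∀ ω : Fin K → Ω, (PW (fun _ : Fin (K * T) => bw θ) fun bs =>
      Ex k (K * n₁) fun V => PW (tκ U K ω V) fun c => g ω bs V c) =
      PW (fun (i : Fin K) (p : (Fin T → Bool) × (Fin n₁ → Fin k) × (Fin T × Fin R → C)) =>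
        WB θ T p.1 * (WV k n₁ p.2.1 * Wκ U (ω i) p.2.1 p.2.2))
        (fun p => g ω (unB T fun i => (p i).1) (flat fun i => List.ofFn (p i).2.1)
          (unC T R fun i => (p i).2.2)) := by
    intro ω
    rw [pw_B, ← pw_fubini (fun _ : Fin K => WB θ T)
      (fun i _ (p : (Fin n₁ → Fin k) × (Fin T × Fin R → C)) => WV k n₁ p.1 * Wκ U (ω i) p.1 p.2)
      (fun bb p => g ω (unB T bb) (flat fun i => List.ofFn (p i).1) (unC T R fun i => (p i).2))]
    exact pw_congr fun bb => h1 ω _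
  have h3 : (∑ ω : Fin K → Ω, (∏ i, U.P (ω i)) * PW (fun _ : Fin (K * T) => bw θ) fun bs =>
      Ex k (K * n₁) fun V => PW (tκ U K ω V) fun c => g ω bs V c) =
      PW (fun _ : Fin K => U.P) (fun ω => PW (fun _ : Fin (K * T) => bw θ) fun bs =>
      Ex k (K * n₁) fun V => PW (tκ U K ω V) fun c => g ω bs V c) := rfl
  rw [h3]
  simp only [h2]
  rw [pw_fubini (fun _ : Fin K => U.P)
    (fun i ω (p : (Fin T → Bool) × (Fin n₁ → Fin k) × (Fin T × Fin R → C)) =>
      WB θ T p.1 * (WV k n₁ p.2.1 * Wκ U ω p.2.1 p.2.2))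
    (fun ω p => g ω (unB T fun i => (p i).1) (flat fun i => List.ofFn (p i).2.1)
          (unC T R fun i => (p i).2.2))]
  rfl

/-- the joint law of one unit -/
lemma J_one (U : UnitData k n₁ T R θ Γ D a n₀ b₀ C Ω)
    (g : Ω → (Fin T → Bool) → List (Fin k) → (Fin T × Fin R → C) → ℝ) :
    (∑ ω, U.P ω * PW (fun _ : Fin T => bw θ) fun bs =>
      Ex k n₁ fun V => PW (U.κ ω V) fun c => g ω bs V c) =
    ∑ x : SS k n₁ T R C Ω, WJ U x * g x.1 x.2.1 (List.ofFn x.2.2.1) x.2.2.2 := by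
  rw [Fintype.sum_prod_type]
  refine Finset.sum_congr rfl fun ω _ => ?_
  rw [Fintype.sum_prod_type]
  unfold PW
  rw [Finset.mul_sum]
  refine Finset.sum_congr rfl fun bs _ => ?_
  beta_reduce
  rw [Fintype.sum_prod_type, ← sum_WV, Finset.mul_sum, Finset.mul_sum]
  refine Finset.sum_congr rfl fun v _ => ?_
  rw [Finset.mul_sum, Finset.mul_sum, Finset.mul_sum]
  refine Finset.sum_congr rfl fun c _ => ?_
  simp only [WJ, WB, Wκ]
  ring

lemma bw_nonneg {θ : ℝ} (h0 : 0 < θ) (h1 : θ < 1) (b : Bool) : 0 ≤ bw θ b := by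
  unfold bw; split_ifs <;> linarith

lemma bw_sum (θ : ℝ) : ∑ b, bw θ b = 1 := by
  simp [bw]

lemma WJ_nonneg (U : UnitData k n₁ T R θ Γ D a n₀ b₀ C Ω) (h0 : 0 < θ) (h1 : θ < 1)
    (x : SS k n₁ T R C Ω) : 0 ≤ WJ U x := by
  unfold WJ
  refine mul_nonneg (U.P_nonneg _) (mul_nonneg (Finset.prod_nonneg fun t _ => bw_nonneg h0 h1 _)
    (mul_nonneg ?_ (Finset.prod_nonneg fun j _ => U.κ_nonneg _ _ _ _)))
  unfold WV; positivity

lemma WJ_sum (U : UnitData k n₁ T R θ Γ D a n₀ b₀ C Ω) (hk : 0 < k) :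
    ∑ x : SS k n₁ T R C Ω, WJ U x = 1 := by
  have h := J_one U (fun _ _ _ _ => 1)
  simp only [mul_one] at h
  rw [← h]
  have h1 : ∀ ω V, PW (U.κ ω V) (fun _ => (1 : ℝ)) = 1 := fun ω V => pw_const (U.κ_sum ω V) 1
  simp only [h1, Ex_const hk, pw_const (fun _ => bw_sum θ), mul_one]
  exact U.P_sum

/-- `K` independent units -/
def tens (U : UnitData k n₁ T R θ Γ D a n₀ b₀ C Ω) (hk : 0 < k) (h0 : 0 < θ) (h1 : θ < 1)
    (K : ℕ) : UnitData k (K * n₁) (K * T) R θ (K * Γ) (K * D) a n₀ b₀ C (Fin K → Ω) where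
  P ω := ∏ i, U.P (ω i)
  S := U.S
  word := tword U K
  κ := tκ U K
  P_nonneg ω := Finset.prod_nonneg fun i _ => U.P_nonneg _
  P_sum := by
    have h := pw_const (w := fun _ : Fin K => U.P) (fun _ => U.P_sum) 1
    unfold PW at h
    simpa using h
  S_sum := U.S_sum
  S_low := U.S_low
  card := U.card
  κ_nonneg ω V j c := U.κ_nonneg _ _ _ _
  κ_sum ω V j := U.κ_sum _ _ _
  word_len ω bs c := flat_length _ fun i => U.word_len _ _ _
  lip := by
    have key : ∀ (ω : Fin K → Ω) (bs : Fin (K * T) → Bool) (c c' : Fin (K * T) × Fin R → C)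
        (V : List (Fin k)), (L (tword U K ω bs c) V : ℝ) - L (tword U K ω bs c') V ≤
        n₀ * ∑ j : Fin (K * T) × Fin R, ind (bs j.1 = true ∧ c j ≠ c' j) := by
      intro ω bs c c' V
      rw [sum_EE, Finset.mul_sum]
      obtain ⟨v, hv, h2⟩ := split_flat K (fun i => U.word (ω i) (bsI T bs i) (cI T R c i)) V
      have h3 : ∑ i, (L (U.word (ω i) (bsI T bs i) (cI T R c' i)) (v i) : ℝ) ≤
          (L (tword U K ω bs c') V : ℝ) := by
        rcases hv with hK | hv
        · subst hK; simp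
        · have := tval_le K (fun i => U.word (ω i) (bsI T bs i) (cI T R c' i)) v
          rw [hv] at this
          exact this
      have h4 : (L (tword U K ω bs c) V : ℝ) =
          ∑ i, (L (U.word (ω i) (bsI T bs i) (cI T R c i)) (v i) : ℝ) := h2
      rw [h4]
      have h5 : ∀ i ∈ (Finset.univ : Finset (Fin K)),
          (L (U.word (ω i) (bsI T bs i) (cI T R c i)) (v i) : ℝ) -
          L (U.word (ω i) (bsI T bs i) (cI T R c' i)) (v i) ≤
          n₀ * ∑ j : Fin T × Fin R, ind (bs (EE K T R (i, j)).1 = true ∧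
            c (EE K T R (i, j)) ≠ c' (EE K T R (i, j))) := by
        intro i _
        exact (abs_le.mp (U.lip (ω i) (bsI T bs i) (cI T R c i) (cI T R c' i) (v i))).2
      have h6 := Finset.sum_le_sum h5
      rw [Finset.sum_sub_distrib] at h6
      linarith
    intro ω bs c c' V
    rw [abs_le]
    constructor
    · have := key ω bs c' c V
      have h2 : ∑ j : Fin (K * T) × Fin R, ind (bs j.1 = true ∧ c' j ≠ c j) =
          ∑ j : Fin (K * T) × Fin R, ind (bs j.1 = true ∧ c j ≠ c' j) :=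
        Finset.sum_congr rfl fun j _ => ind_congr (by simp only [ne_comm])
      rw [h2] at this
      linarith
    · exact key ω bs c c' V
  dep := by
    intro ω bs c c' h
    unfold tword
    congr 1
    funext i
    refine U.dep _ _ _ _ fun j hj => ?_
    exact h _ hj
  unif := by
    intro f
    have hunit : ∀ f : List (Fin k) → ℝ,
        ∑ y : Ω × (Fin T → Bool) × (Fin T × Fin R → C), (U.P y.1 * (WB θ T y.2.1 *
          ∏ j, U.S (y.2.2 j))) * f (U.word y.1 y.2.1 y.2.2) = Ex k n₁ f := by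
      intro f
      rw [← U.unif, Fintype.sum_prod_type]
      refine Finset.sum_congr rfl fun ω _ => ?_
      rw [Fintype.sum_prod_type]
      unfold PW
      rw [Finset.mul_sum]
      refine Finset.sum_congr rfl fun bs _ => ?_
      beta_reduce
      rw [Finset.mul_sum, Finset.mul_sum]
      refine Finset.sum_congr rfl fun c _ => ?_
      simp only [WB]
      ring
    rw [← unif_flat _ _ n₁ hunit K f]
    have h2 : ∀ ω : Fin K → Ω, (PW (fun _ : Fin (K * T) => bw θ) fun bs =>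
        PW (fun _ : Fin (K * T) × Fin R => U.S) fun c => f (tword U K ω bs c)) =
        PW (fun _ : Fin K => WB θ T) (fun bb =>
          PW (fun (_ : Fin K) (c : Fin T × Fin R → C) => ∏ j, U.S (c j)) fun cc =>
            f (flat fun i => U.word (ω i) (bb i) (cc i))) := by
      intro ω
      rw [pw_B]
      refine pw_congr fun bb => ?_
      rw [pw_C]
      refine pw_congr fun cc => ?_
      rw [tword_un]
    have h3 : (∑ ω : Fin K → Ω, (∏ i, U.P (ω i)) * PW (fun _ : Fin (K * T) => bw θ) fun bs =>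
        PW (fun _ : Fin (K * T) × Fin R => U.S) fun c => f (tword U K ω bs c)) =
        PW (fun _ : Fin K => U.P) (fun ω => PW (fun _ : Fin (K * T) => bw θ) fun bs =>
        PW (fun _ : Fin (K * T) × Fin R => U.S) fun c => f (tword U K ω bs c)) := rfl
    rw [h3]
    simp only [h2]
    rw [← pw_fubini (fun _ : Fin K => U.P) (fun _ _ (p : (Fin T → Bool) × (Fin T × Fin R → C)) =>
      WB θ T p.1 * ∏ j, U.S (p.2 j)) (fun ω p => f (flat fun i => U.word (ω i) (p i).1 (p i).2))]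
    refine pw_congr fun ω => ?_
    rw [← pw_fubini (fun _ : Fin K => WB θ T) (fun _ _ (c : Fin T × Fin R → C) =>
      ∏ j, U.S (c j)) (fun bb cc => f (flat fun i => U.word (ω i) (bb i) (cc i)))]
  dom := by
    intro ω f hf
    have h1 : (Ex k (K * n₁) fun V => PW (tκ U K ω V) f) =
        PW (fun _ : Fin K => WV k n₁) (fun v => PW (fun i => Wκ U (ω i) (v i))
          (fun cc => f (unC T R cc))) := by
      rw [Ex_eq_pw]
      refine pw_congr fun v => ?_
      rw [pw_C]
      refine pw_congr_w fun i c => ?_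
      simp only [tκ_EE]
      rfl
    rw [h1, pw_marg (fun _ : Fin K => WV k n₁) (fun i v => Wκ U (ω i) v)]
    have h2 : ∀ (i : Fin K) (c : Fin T × Fin R → C),
        (∑ v, WV k n₁ v * Wκ U (ω i) v c) ≤ Real.exp (a * T) * ∏ j, U.S (c j) := by
      intro i c
      have h3 := U.dom (ω i) (fun x => if x = c then 1 else 0) (fun x => by split_ifs <;> norm_num)
      simp only [pw_single] at h3
      rw [← sum_WV] at h3
      exact h3
    have h3 : ∀ (i : Fin K) (c : Fin T × Fin R → C), 0 ≤ ∑ v, WV k n₁ v * Wκ U (ω i) v c := by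
      intro i c
      refine Finset.sum_nonneg fun v _ => mul_nonneg (by unfold WV; positivity)
        (Finset.prod_nonneg fun j _ => U.κ_nonneg _ _ _ _)
    refine (pw_mono_w h3 h2 (fun x => hf _)).trans (le_of_eq ?_)
    rw [pw_smul_w, Fintype.card_fin, ← Real.exp_nat_mul]
    congr 1
    · congr 1; push_cast; ring
    · rw [← pw_C K (fun _ : Fin (K * T) × Fin R => U.S) f]
  luck := by
    rw [J_rep U K (fun ω bs V c => (L (tword U K ω bs c) V : ℝ))]
    have hS := WJ_sum U hk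
    have h2 : ∀ x : Fin K → SS k n₁ T R C Ω,
        (∑ i, (L (U.word (x i).1 (x i).2.1 (x i).2.2.2) (List.ofFn (x i).2.2.1) : ℝ)) ≤
        (L (tword U K (fun i => (x i).1) (unB T fun i => (x i).2.1)
          (unC T R fun i => (x i).2.2.2)) (flat fun i => List.ofFn (x i).2.2.1) : ℝ) := by
      intro x
      rw [tword_un]
      exact tval_le K _ _
    refine le_trans ?_ (pw_mono (fun _ x => WJ_nonneg U h0 h1 x) h2)
    rw [pw_sum]
    have h3 : ∀ i ∈ (Finset.univ : Finset (Fin K)), PW (fun _ : Fin K => WJ U)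
        (fun x => (L (U.word (x i).1 (x i).2.1 (x i).2.2.2) (List.ofFn (x i).2.2.1) : ℝ)) =
        ∑ ω, U.P ω * PW (fun _ : Fin T => bw θ) fun bs =>
          Ex k n₁ fun V => PW (U.κ ω V) fun c => (L (U.word ω bs c) V : ℝ) := by
      intro i _
      rw [J_one U (fun ω bs V c => (L (U.word ω bs c) V : ℝ))]
      exact pw_coord (w := fun _ : Fin K => WJ U) (fun _ => hS) i
        (fun x => (L (U.word x.1 x.2.1 x.2.2.2) (List.ofFn x.2.2.1) : ℝ))
    rw [Finset.sum_congr rfl h3, Finset.sum_const, Finset.card_univ, Fintype.card_fin,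
      nsmul_eq_mul]
    have h4 := mul_le_mul_of_nonneg_left U.luck (Nat.cast_nonneg (α := ℝ) K)
    push_cast
    linarith
  ent := by
    have hS := WJ_sum U hk
    have h1 : (∑ ω : Fin K → Ω, (∏ i, U.P (ω i)) * PW (fun _ : Fin (K * T) => bw θ) fun bs =>
        Ex k (K * n₁) fun V => ∑ j : Fin (K * T) × Fin R,
          ind (bs j.1 = true) * KL (tκ U K ω V j) U.S) =
        (∑ ω : Fin K → Ω, (∏ i, U.P (ω i)) * PW (fun _ : Fin (K * T) => bw θ) fun bs =>
        Ex k (K * n₁) fun V => PW (tκ U K ω V) fun _ => ∑ j : Fin (K * T) × Fin R,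
          ind (bs j.1 = true) * KL (tκ U K ω V j) U.S) := by
      refine Finset.sum_congr rfl fun ω _ => ?_
      congr 1
      refine pw_congr fun bs => Ex_congr fun V _ => ?_
      rw [pw_const (w := tκ U K ω V) fun j => U.κ_sum _ _ _]
    rw [h1, J_rep U K (fun ω bs V _ => ∑ j : Fin (K * T) × Fin R,
          ind (bs j.1 = true) * KL (tκ U K ω V j) U.S)]
    simp only [sum_EE, unB_EE, tκ_EE]
    rw [pw_sum]
    have h3 : ∀ i ∈ (Finset.univ : Finset (Fin K)), PW (fun _ : Fin K => WJ U)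
        (fun x => ∑ j : Fin T × Fin R, ind ((x i).2.1 j.1 = true) *
          KL (U.κ (x i).1 (List.ofFn (x i).2.2.1) j) U.S) =
        ∑ ω, U.P ω * PW (fun _ : Fin T => bw θ) fun bs =>
          Ex k n₁ fun V => ∑ j : Fin T × Fin R, ind (bs j.1 = true) * KL (U.κ ω V j) U.S := by
      intro i _
      have h4 : (∑ ω, U.P ω * PW (fun _ : Fin T => bw θ) fun bs =>
          Ex k n₁ fun V => ∑ j : Fin T × Fin R, ind (bs j.1 = true) * KL (U.κ ω V j) U.S) =
          (∑ ω, U.P ω * PW (fun _ : Fin T => bw θ) fun bs =>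
          Ex k n₁ fun V => PW (U.κ ω V) fun _ => ∑ j : Fin T × Fin R,
            ind (bs j.1 = true) * KL (U.κ ω V j) U.S) := by
        refine Finset.sum_congr rfl fun ω _ => ?_
        congr 1
        refine pw_congr fun bs => Ex_congr fun V _ => ?_
        rw [pw_const (w := U.κ ω V) fun j => U.κ_sum _ _ _]
      rw [h4, J_one U (fun ω bs V _ => ∑ j : Fin T × Fin R,
            ind (bs j.1 = true) * KL (U.κ ω V j) U.S)]
      exact pw_coord (w := fun _ : Fin K => WJ U) (fun _ => hS) i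
        (fun x => ∑ j : Fin T × Fin R, ind (x.2.1 j.1 = true) *
          KL (U.κ x.1 (List.ofFn x.2.2.1) j) U.S)
    rw [Finset.sum_congr rfl h3, Finset.sum_const, Finset.card_univ, Fintype.card_fin,
      nsmul_eq_mul]
    exact mul_le_mul_of_nonneg_left U.ent (Nat.cast_nonneg _)

end tensor

end TENS

open TENS in
theorem stmt_TENS : Stmt_TENS := by
  intro k n₁ T R θ Γ D a n₀ b₀ C Ω _ _ _ hk hΓ h0 h1 _ U
  obtain ⟨K₀, hK₀⟩ := exists_nat_ge (400 * (n₁ : ℝ) ^ 2 / Γ ^ 2)
  filter_upwards [eventually_ge_atTop K₀, eventually_ge_atTop 1] with K hK hK1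
  refine ⟨tens U hk h0 h1 K, ?_⟩
  have hK1' : (0 : ℝ) < K := by exact_mod_cast hK1
  have hKge : 400 * (n₁ : ℝ) ^ 2 / Γ ^ 2 ≤ K := hK₀.trans (by exact_mod_cast hK)
  have hS := WJ_sum U hk
  have hJ0 := WJ_nonneg U h0 h1
  set X : SS k n₁ T R C Ω → ℝ := fun x => (L (U.word x.1 x.2.1 x.2.2.2) (List.ofFn x.2.2.1) : ℝ)
    with hX
  set μ := ∑ x, WJ U x * X x with hμ
  have hμ1 : gam k * n₁ + Γ ≤ μ := by
    rw [hμ, hX, ← J_one U (fun ω bs V c => (L (U.word ω bs c) V : ℝ))]
    exact U.luck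
  have hX0 : ∀ x, 0 ≤ X x := fun x => Nat.cast_nonneg _
  have hX1 : ∀ x, X x ≤ n₁ := by
    intro x
    simp only [hX]
    have := L_le_left (U.word x.1 x.2.1 x.2.2.2) (List.ofFn x.2.2.1)
    rw [U.word_len] at this
    exact_mod_cast this
  have hμ0 : 0 ≤ μ := Finset.sum_nonneg fun x _ => mul_nonneg (hJ0 x) (hX0 x)
  have hμn : μ ≤ n₁ := by
    calc μ ≤ ∑ x, WJ U x * n₁ := Finset.sum_le_sum fun x _ =>
          mul_le_mul_of_nonneg_left (hX1 x) (hJ0 x)
      _ = n₁ := by rw [← Finset.sum_mul, hS, one_mul]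
  set Y : SS k n₁ T R C Ω → ℝ := fun x => X x - μ with hY
  have hYs : ∑ x, WJ U x * Y x = 0 := by
    simp only [hY, mul_sub, Finset.sum_sub_distrib, ← Finset.sum_mul, hS, one_mul, ← hμ, sub_self]
  have hY2 : ∑ x, WJ U x * Y x ^ 2 ≤ (n₁ : ℝ) ^ 2 := by
    calc ∑ x, WJ U x * Y x ^ 2 ≤ ∑ x, WJ U x * (n₁ : ℝ) ^ 2 := by
          refine Finset.sum_le_sum fun x _ => mul_le_mul_of_nonneg_left ?_ (hJ0 x)
          apply sq_le_sq'
          · simp only [hY]; linarith [hX0 x]
          · simp only [hY]; linarith [hX1 x]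
      _ = (n₁ : ℝ) ^ 2 := by rw [← Finset.sum_mul, hS, one_mul]
  have hsq := pw_sq (ι := Fin K) hS Y hYs
  rw [Fintype.card_fin] at hsq
  unfold HPLuck
  have hrep := J_rep U K (fun ω bs V c =>
    ind ((L (tword U K ω bs c) V : ℝ) < gam k * ((K * n₁ : ℕ) : ℝ) + K * Γ / 2))
  refine (le_of_eq hrep).trans ?_
  have hpt : ∀ x : Fin K → SS k n₁ T R C Ω,
      ind ((L (tword U K (fun i => (x i).1) (unB T fun i => (x i).2.1)
          (unC T R fun i => (x i).2.2.2)) (flat fun i => List.ofFn (x i).2.2.1) : ℝ) <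
          gam k * ((K * n₁ : ℕ) : ℝ) + K * Γ / 2) ≤
      4 / ((K : ℝ) ^ 2 * Γ ^ 2) * (∑ i, Y (x i)) ^ 2 := by
    intro x
    rcases Classical.em ((L (tword U K (fun i => (x i).1) (unB T fun i => (x i).2.1)
          (unC T R fun i => (x i).2.2.2)) (flat fun i => List.ofFn (x i).2.2.1) : ℝ) <
          gam k * ((K * n₁ : ℕ) : ℝ) + K * Γ / 2) with h | h
    · rw [ind_of h]
      rw [tword_un] at h
      have h2 := tval_le K (fun i => U.word (x i).1 (x i).2.1 (x i).2.2.2)
        (fun i => List.ofFn (x i).2.2.1)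
      have h3 : tval K (fun i => U.word (x i).1 (x i).2.1 (x i).2.2.2)
        (fun i => List.ofFn (x i).2.2.1) = ∑ i, X (x i) := rfl
      have h4 : ∑ i, Y (x i) = ∑ i, X (x i) - K * μ := by
        simp only [hY, Finset.sum_sub_distrib, Finset.sum_const, Finset.card_univ,
          Fintype.card_fin, nsmul_eq_mul]
      have h5 : ∑ i, Y (x i) ≤ -(K * Γ / 2) := by
        rw [h4]
        push_cast at h
        have := mul_le_mul_of_nonneg_left hμ1 hK1'.le
        nlinarith
      have h6 : (K * Γ / 2) ^ 2 ≤ (∑ i, Y (x i)) ^ 2 := by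
        have h7 : 0 ≤ K * Γ / 2 := by positivity
        nlinarith
      have h8 : 0 < (K : ℝ) ^ 2 * Γ ^ 2 := by positivity
      rw [div_mul_eq_mul_div, le_div_iff₀ h8]
      nlinarith
    · rw [ind_of_not h]
      positivity
  refine (pw_mono (fun _ x => hJ0 x) hpt).trans ?_
  rw [pw_const_mul, hsq]
  have h9 : 400 * (n₁ : ℝ) ^ 2 ≤ K * Γ ^ 2 := by
    rwa [div_le_iff₀ (by positivity)] at hKge
  have h10 : 0 < (K : ℝ) ^ 2 * Γ ^ 2 := by positivity
  rw [div_mul_eq_mul_div, div_le_iff₀ h10]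
  have h11 : (K : ℝ) * ∑ x, WJ U x * Y x ^ 2 ≤ K * (n₁ : ℝ) ^ 2 :=
    mul_le_mul_of_nonneg_left hY2 hK1'.le
  nlinarith [mul_le_mul_of_nonneg_left h9 hK1'.le]

end

end Pool.Agent.LCSV
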